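import Pool.Agent.W844.GP.Defs

/-!
# GP-D: multi-directional Hammersley-Welsh decomposition
-/

set_option autoImplicit false

namespace Pool.Agent.W19.GP

open Pool.Agent.W844.GP
open Pool.Agent.W844.VG (V)

/-- decomposition of a nonempty list at the last maximum of `f` -/
theorem last_max {α : Type*} (f : α → ℤ) : ∀ l : List α, l ≠ [] →
    ∃ (p : List α) (y : α) (r : List α), l = p ++ y :: r ∧ (∀ z ∈ l, f z ≤ f y) ∧
      ∀ z ∈ r, f z < f y := by
  intro l
  induction l with
  | nil => intro h; exact absurd rfl h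
  | cons a l' ih =>
    intro _
    by_cases h0 : l' = []
    · subst h0
      exact ⟨[], a, [], rfl, by simp, by simp⟩
    · obtain ⟨p, y, r, h1, h2, h3⟩ := ih h0
      by_cases h4 : f a ≤ f y
      · refine ⟨a :: p, y, r, by rw [h1]; rfl, ?_, h3⟩
        intro z hz
        rcases List.mem_cons.1 hz with rfl | hz
        · exact h4
        · exact h2 z hz
      · refine ⟨[], a, l', rfl, ?_, ?_⟩
        · intro z hz
          rcases List.mem_cons.1 hz with rfl | hz
          · exact le_rfl
          · have := h2 z hz; omega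
        · intro z hz
          have := h2 z hz; omega

/-- no bridges of span at least `s` and positive weight -/
def NB {d : ℕ} (w : V d → ℝ) (s : ℕ) (f : V d → ℤ) (l : List (V d)) : Prop :=
  ∀ (l' : List (V d)) (x y : V d), (l' <:+: l ∨ l'.reverse <:+: l) → l'.head? = some x →
    l'.getLast? = some y → (∀ z ∈ l', f x ≤ f z ∧ f z ≤ f y) → f x + s ≤ f y → wt w l' ≤ 0

/-- slow lists -/
def Slow {d : ℕ} (f : V d → ℤ) (l : List (V d)) : Prop :=
  l.IsChain fun x y => |f y - f x| ≤ 1

variable {d : ℕ} {w : V d → ℝ} {s : ℕ} {f : V d → ℤ} {l : List (V d)}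

theorem wt_append (w : V d → ℝ) (l₁ l₂ : List (V d)) : wt w (l₁ ++ l₂) = wt w l₁ + wt w l₂ := by
  simp [wt]

theorem wt_reverse (w : V d → ℝ) (l : List (V d)) : wt w l.reverse = wt w l := by
  simp [wt]

theorem NB.infix {l₁ : List (V d)} (h : NB w s f l) (h1 : l₁ <:+: l) : NB w s f l₁ := by
  intro l' x y h2
  exact h l' x y (h2.imp (fun a => a.trans h1) (fun a => a.trans h1))

theorem NB.neg (h : NB w s f l) : NB w s (fun x => - f x) l := by
  intro l' x y h1 h2 h3 h4 h5
  simp only at h4 h5
  have h6 : wt w l'.reverse ≤ 0 := by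
    refine h l'.reverse y x ?_ ?_ ?_ ?_ ?_
    · rw [List.reverse_reverse]; exact h1.symm
    · rw [List.head?_reverse, h3]
    · rw [List.getLast?_reverse, h2]
    · intro z hz
      have := h4 z (List.mem_reverse.1 hz)
      constructor <;> omega
    · omega
  rwa [wt_reverse] at h6

theorem NB.rev (h : NB w s f l) : NB w s f l.reverse := by
  intro l' x y h1
  refine h l' x y ?_
  rcases h1 with h1 | h1
  · right
    have := h1.reverse
    rwa [List.reverse_reverse] at this
  · left
    have := h1.reverse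
    rwa [List.reverse_reverse, List.reverse_reverse] at this

theorem Slow.neg (h : Slow f l) : Slow (fun x => - f x) l := by
  refine List.IsChain.imp ?_ h
  intro a b hab
  show |(- f b) - (- f a)| ≤ 1
  rw [abs_le] at hab ⊢
  constructor <;> omega

theorem Slow.rev (h : Slow f l) : Slow f l.reverse := by
  unfold Slow
  rw [List.isChain_reverse]
  refine List.IsChain.imp ?_ h
  intro a b hab
  rw [abs_le] at hab ⊢
  constructor <;> omega

theorem suffix_aux (w : V d → ℝ) {s : ℕ} (hs : 0 < s) : ∀ (n : ℕ) (f : V d → ℤ) (l : List (V d)),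
    l.length ≤ n → Slow f l → NB w s f l → (∀ x, l.head? = some x → ∀ z ∈ l, f x ≤ f z) →
    ∃ l2, l2 <:+ l ∧ (∀ z ∈ l2, ∀ z' ∈ l2, f z - f z' < s) ∧ wt w l ≤ wt w l2 := by
  intro n
  induction n with
  | zero =>
    intro f l hl _ _ _
    have : l = [] := List.length_eq_zero_iff.1 (by omega)
    subst this
    exact ⟨[], List.suffix_rfl, by simp, le_rfl⟩
  | succ n ih =>
    intro f l hl hsl hnb hmin
    by_cases h0 : l = []
    · subst h0
      exact ⟨[], List.suffix_rfl, by simp, le_rfl⟩
    by_cases h1 : ∀ z ∈ l, ∀ z' ∈ l, f z - f z' < s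
    · exact ⟨l, List.suffix_rfl, h1, le_rfl⟩
    push Not at h1
    obtain ⟨z1, hz1, z2, hz2, h12⟩ := h1
    obtain ⟨p, y, r, h2, h3, h4⟩ := last_max f l h0
    obtain ⟨x, hx⟩ : ∃ x, l.head? = some x := by
      cases hh : l with
      | nil => exact absurd hh h0
      | cons a l' => exact ⟨a, rfl⟩
    have hsplit : l = (p ++ [y]) ++ r := by rw [h2]; simp
    have hpre : (p ++ [y]) <:+: l := ⟨[], r, by rw [hsplit]; simp⟩
    have hhead : (p ++ [y]).head? = some x := by
      rw [hsplit] at hx
      cases p with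
      | nil => simpa using hx
      | cons a p => simpa using hx
    have hw1 : wt w (p ++ [y]) ≤ 0 := by
      refine hnb (p ++ [y]) x y (Or.inl hpre) hhead (by simp) ?_ ?_
      · intro z hz
        have hz' : z ∈ l := hpre.subset hz
        exact ⟨hmin x hx z hz', h3 z hz'⟩
      · have h5 := hmin x hx z2 hz2
        have h6 := h3 z1 hz1
        omega
    have hrs : r <:+ l := ⟨p ++ [y], hsplit.symm⟩
    have hlen : r.length ≤ n := by
      have : l.length = p.length + 1 + r.length := by rw [hsplit]; simp; omega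
      omega
    obtain ⟨l2, h7, h8, h9⟩ := ih (fun x => - f x) r hlen
      (Slow.neg (List.IsChain.infix hsl hrs.isInfix)) (NB.neg (hnb.infix hrs.isInfix)) (by
        intro z0 hz0 z hz
        have h10 := h4 z hz
        have h11 : |f z0 - f y| ≤ 1 := by
          have h12 : Slow f ((p ++ [y]) ++ r) := by rw [← hsplit]; exact hsl
          unfold Slow at h12
          rw [List.isChain_append] at h12
          exact h12.2.2 y (by simp) z0 (by simp [hz0])
        have h13 : z0 ∈ r := List.mem_of_mem_head? (by simp [hz0])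
        have h14 := h4 z0 h13
        rw [abs_le] at h11
        omega)
    refine ⟨l2, h7.trans hrs, ?_, ?_⟩
    · intro z hz z' hz'
      have := h8 z' hz' z hz
      omega
    · rw [hsplit, wt_append]
      linarith

/-- one direction -/
theorem one_dir (w : V d → ℝ) {s : ℕ} (hs : 0 < s) (f : V d → ℤ) (l : List (V d))
    (hsl : Slow f l) (hnb : NB w s f l) : ∃ g1 g2, g1 <:+: l ∧ g2 <:+: l ∧
      (∀ z ∈ g1, ∀ z' ∈ g1, f z - f z' < s) ∧ (∀ z ∈ g2, ∀ z' ∈ g2, f z - f z' < s) ∧
      wt w l ≤ wt w g1 + wt w g2 := by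
  by_cases h0 : l = []
  · subst h0
    exact ⟨[], [], List.infix_rfl, List.infix_rfl, by simp, by simp, by simp [wt]⟩
  obtain ⟨p, y, r, h2, h3, h4⟩ := last_max (fun x => - f x) l h0
  have hsplit : l = (p ++ [y]) ++ r := by rw [h2]; simp
  have hpre : (p ++ [y]) <:+: l := ⟨[], r, by rw [hsplit]; simp⟩
  have hrs : r <:+ l := ⟨p ++ [y], hsplit.symm⟩
  obtain ⟨g2, ha, hb, hc⟩ := suffix_aux w hs r.length f r le_rfl
    (List.IsChain.infix hsl hrs.isInfix) (hnb.infix hrs.isInfix) (by
      intro z0 hz0 z hz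
      have h10 := h4 z hz
      have h11 : |f z0 - f y| ≤ 1 := by
        have h12 : Slow f ((p ++ [y]) ++ r) := by rw [← hsplit]; exact hsl
        unfold Slow at h12
        rw [List.isChain_append] at h12
        exact h12.2.2 y (by simp) z0 (by simp [hz0])
      have h13 : z0 ∈ r := List.mem_of_mem_head? (by simp [hz0])
      have h14 := h4 z0 h13
      rw [abs_le] at h11
      omega)
  obtain ⟨g1, ha', hb', hc'⟩ := suffix_aux w hs (p ++ [y]).reverse.length f (p ++ [y]).reverse
    le_rfl (Slow.rev (List.IsChain.infix hsl hpre)) (NB.rev (hnb.infix hpre)) (by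
      intro z0 hz0 z hz
      have h13 : z0 = y := by simpa using hz0.symm
      subst h13
      have h14 := h3 z (hpre.subset (List.mem_reverse.1 hz))
      omega)
  refine ⟨g1.reverse, g2, ?_, ha.isInfix.trans hrs.isInfix, ?_, hb, ?_⟩
  · have := ha'.isInfix.reverse
    rw [List.reverse_reverse] at this
    exact this.trans hpre
  · intro z hz z' hz'
    exact hb' z (List.mem_reverse.1 hz) z' (List.mem_reverse.1 hz')
  · rw [wt_reverse] at hc' ⊢
    rw [hsplit, wt_append]
    linarith

theorem slow_of_isP {l : List (V d)} (h : IsP l) (i : Fin d) : Slow (fun x => x i) l := by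
  refine List.IsChain.imp ?_ h.1
  intro a b hab
  have h1 : |b i - a i| ≤ ∑ j, |b j - a j| :=
    Finset.single_le_sum (f := fun j => |b j - a j|) (fun j _ => abs_nonneg _) (Finset.mem_univ i)
  rw [hab] at h1
  exact h1

theorem isP_infix {l l' : List (V d)} (h : IsP l) (h1 : l' <:+: l) : IsP l' :=
  ⟨h.1.infix h1, h.2.sublist h1.sublist⟩

theorem isP_reverse {l : List (V d)} (h : IsP l) : IsP l.reverse := by
  refine ⟨?_, List.nodup_reverse.2 h.2⟩
  rw [List.isChain_reverse]
  refine List.IsChain.imp ?_ h.1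
  intro a b hab
  unfold adj at hab ⊢
  rw [← hab]
  exact Finset.sum_congr rfl fun j _ => abs_sub_comm _ _

theorem s_D : S_D := by
  intro d w s hs l hP hyp c hc
  have hnb : ∀ i : Fin d, NB w s (fun x => x i) l := by
    intro i l' x y h1 h2 h3 h4 h5
    have hP' : IsP l' := by
      rcases h1 with h1 | h1
      · exact isP_infix hP h1
      · have := isP_reverse (isP_infix hP h1)
        rwa [List.reverse_reverse] at this
    exact hyp i l' x y h1 ⟨hP', h2, h3, h4⟩ h5
  have key : ∀ k : ℕ, k ≤ d → ∃ l', l' <:+: l ∧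
      (∀ z ∈ l', ∀ z' ∈ l', ∀ j : Fin d, j.val < k → z j - z' j < s) ∧
      2 ^ (d - k) * c ≤ wt w l' := by
    intro k
    induction k with
    | zero =>
      intro _
      exact ⟨l, List.infix_rfl, by intro z _ z' _ j hj; omega, by simpa using hc⟩
    | succ k ih =>
      intro hk
      obtain ⟨l', h1, h2, h3⟩ := ih (by omega)
      have hi := one_dir w hs (fun x : V d => x ⟨k, by omega⟩) l'
        (slow_of_isP (isP_infix hP h1) _) ((hnb _).infix h1)
      obtain ⟨g1, g2, ha, hb, hc1, hc2, hd⟩ := hi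
      have hpow : (2 : ℝ) ^ (d - k) * c = 2 ^ (d - (k + 1)) * c + 2 ^ (d - (k + 1)) * c := by
        have : d - k = (d - (k + 1)) + 1 := by omega
        rw [this, pow_succ]; ring
      have hcase : 2 ^ (d - (k + 1)) * c ≤ wt w g1 ∨ 2 ^ (d - (k + 1)) * c ≤ wt w g2 := by
        by_contra hcon
        push Not at hcon
        linarith [hcon.1, hcon.2]
      have hfin : ∀ g : List (V d), g <:+: l' →
          (∀ z ∈ g, ∀ z' ∈ g, z ⟨k, by omega⟩ - z' ⟨k, by omega⟩ < (s : ℤ)) →
          ∀ z ∈ g, ∀ z' ∈ g, ∀ j : Fin d, j.val < k + 1 → z j - z' j < s := by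
        intro g hg hg2 z hz z' hz' j hj
        by_cases hjk : j.val < k
        · exact h2 z (hg.subset hz) z' (hg.subset hz') j hjk
        · have : j = ⟨k, by omega⟩ := Fin.ext (by simp; omega)
          rw [this]
          exact hg2 z hz z' hz'
      rcases hcase with h | h
      · exact ⟨g1, ha.trans h1, hfin g1 ha hc1, h⟩
      · exact ⟨g2, hb.trans h1, hfin g2 hb hc2, h⟩
  obtain ⟨l', h1, h2, h3⟩ := key d le_rfl
  exact ⟨l', h1, fun z hz z' hz' j => h2 z hz z' hz' j j.isLt, by simpa using h3⟩

end Pool.Agent.W19.GP
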